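import Pool.Agent.WAX.Stmts

/-!
# Squad WAX, row LN0: the trivial defect group
-/

open scoped BigOperators

noncomputable section

namespace Pool.Agent.PP.TX.H21

open Pool.Agent.Helper51_AWC Pool.Agent.Helper79_WRA Pool.Agent.PP Pool.Agent.PP.KF
open Pool.Agent.PP.K9 Pool.Agent.PP.K9.H97 Pool.Agent.PP.H75 Pool.Agent.PP.T3 Pool.Agent.PP.T2

attribute [local instance] Ideal.Quotient.field

/-- LN0: the trivial defect group. -/
theorem ln0 (lbd : K9.LbdStmt) (dzo : K9.DzoStmt) : Ln0Stmt := by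
  intro ℓ hℓ M hMx hM G _ _ e V γ hL hV
  have h1 : ln e ≤ (IrrE M e).ncard := (lbd ℓ M hM G e hL.blk.1 hL.blk.2.1).2
  have h2 : ∀ Q : Subgroup G, IsPGroup ℓ Q → Gd e Q → Q = ⊥ := by
    intro Q hQ hg
    have h3 := hL.tp.mx Q hQ hg
    rw [hV, Subgroup.card_bot] at h3
    exact (Subgroup.card_le_one_iff_eq_bot Q).1 h3
  obtain ⟨κ, hκ, -⟩ := dzo ℓ M hM G e hL.blk h2
  rw [hκ, Set.ncard_singleton] at h1
  exact h1

end Pool.Agent.PP.TX.H21
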